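import Mathlib

/-!
# The Bass-Serre tree of an amalgam

`A` is a group with subgroups `P i` which contain a subgroup `C`, and `A` is the amalgam of the `P i`
over `C`. The vertices of the tree are the cosets of `C` and of the `P i`, and `g C` is joined to
`g P i`.
-/

set_option autoImplicit false

namespace Pool.Agent.Lib.MP_551055_al.AT70

open Monoid Monoid.PushoutI

universe u v

/-- A graph whose vertices are lists, closed under tails, where `l` is joined to `a :: l`, is a
tree. -/
theorem isTree_of_lists {V : Type u} {α : Type v} (T : SimpleGraph V) (L : V → List α)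
    (hinj : Function.Injective L) (x₀ : V) (h₀ : L x₀ = [])
    (htl : ∀ y a l, L y = a :: l → ∃ x, L x = l)
    (hadj : ∀ x y, T.Adj x y ↔ (∃ a, L x = a :: L y) ∨ ∃ a, L y = a :: L x) : T.IsTree := by
  rw [SimpleGraph.isTree_iff]
  refine ⟨?_, ?_⟩
  · have hre : ∀ (l : List α) (y : V), L y = l → T.Reachable y x₀ := by
      intro l
      induction l with
      | nil =>
        intro y hy
        rw [hinj (hy.trans h₀.symm)]
      | cons a l ih =>
        intro y hy
        obtain ⟨x, hx⟩ := htl y a l hy
        have h1 : T.Adj y x := (hadj y x).2 (Or.inl ⟨a, by rw [hy, hx]⟩)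
        exact h1.reachable.trans (ih x hx)
    have : Nonempty V := ⟨x₀⟩
    exact SimpleGraph.Connected.mk fun x y => (hre _ x rfl).trans (hre _ y rfl).symm
  · rw [SimpleGraph.isAcyclic_iff_forall_adj_isBridge]
    have key : ∀ x y : V, T.Adj x y → (∃ a, L y = a :: L x) → T.IsBridge s(x, y) := by
      intro x y _ hxy
      obtain ⟨a, ha⟩ := hxy
      rw [SimpleGraph.isBridge_iff]
      intro hr
      obtain ⟨w⟩ := hr.symm
      have hcl : ∀ (z z' : V) (_ : (T.deleteEdges {s(x, y)}).Walk z z'),
          L y <:+ L z → L y <:+ L z' := by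
        intro z z' w
        induction w with
        | nil => exact id
        | cons hab _ ih =>
          rename_i z z' z'' _
          intro hz
          refine ih ?_
          rw [SimpleGraph.deleteEdges_adj] at hab
          obtain ⟨hab, hne⟩ := hab
          rcases (hadj z z').1 hab with ⟨b, hb⟩ | ⟨b, hb⟩
          · rw [hb] at hz
            rcases List.suffix_cons_iff.1 hz with h1 | h1
            · exfalso
              apply hne
              have h2 : z = y := hinj (hb.trans h1.symm)
              have h3 : z' = x := by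
                apply hinj
                rw [ha] at h1
                exact (List.cons.inj h1).2.symm
              rw [h2, h3]
              exact Sym2.eq_swap
            · exact h1
          · rw [hb]
            exact hz.trans (List.suffix_cons b _)
      have h1 := hcl y x w (List.suffix_refl _)
      have h2 := h1.length_le
      rw [ha, List.length_cons] at h2
      omega
    intro x y hxy
    rcases (hadj x y).1 hxy with h1 | h1
    · rw [Sym2.eq_swap]
      exact key y x hxy.symm h1
    · exact key x y hxy h1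

section words

variable {ι : Type u} {G : ι → Type u} {H : Type u} [∀ i, Group (G i)] [Group H]
  {φ : ∀ i, H →* G i} [DecidableEq ι] [∀ i, DecidableEq (G i)] (d : NormalWord.Transversal φ)

/-- The normal word of an element. -/
noncomputable def nw (g : PushoutI φ) : NormalWord d := NormalWord.equiv g

/-- The letters of the normal word. -/
noncomputable def wl (g : PushoutI φ) : List (Σ i, G i) := (nw d g).toList

/-- The letters of the tail of the normal word with respect to the factor `i`. -/
noncomputable def tl (i : ι) (g : PushoutI φ) : List (Σ i, G i) :=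
  (NormalWord.equivPair i (nw d g)).tail.toList

theorem nw_mul (x g : PushoutI φ) : nw d (x * g) = x • nw d g := by
  show (x * g) • NormalWord.empty = x • g • (NormalWord.empty : NormalWord d)
  rw [mul_smul]

theorem nw_inj {g g' : PushoutI φ} (h : nw d g = nw d g') : g = g' := NormalWord.equiv.injective h

theorem wl_base (c : H) (g : PushoutI φ) : wl d (base φ c * g) = wl d g := by
  rw [wl, nw_mul, NormalWord.base_smul_def]
  rfl

theorem wl_eq {g g' : PushoutI φ} (h : wl d g = wl d g') : ∃ c : H, g' = base φ c * g := by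
  refine ⟨(nw d g').head * (nw d g).head⁻¹, nw_inj d ?_⟩
  rw [nw_mul, NormalWord.base_smul_def]
  refine NormalWord.ext ?_ h.symm
  show (nw d g').head = (nw d g').head * (nw d g).head⁻¹ * (nw d g).head
  rw [inv_mul_cancel_right]

theorem tl_of (i : ι) (p : G i) (g : PushoutI φ) : tl d i (of i p * g) = tl d i g := by
  rw [tl, nw_mul, NormalWord.summand_smul_def, Equiv.apply_symm_apply]
  rfl

omit [DecidableEq ι] [∀ i, DecidableEq (G i)] in
theorem word_ext {w w' : CoprodI.Word G} (h : w.toList = w'.toList) : w = w' :=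
  CoprodI.Word.ext h

theorem tl_eq {i : ι} {g g' : PushoutI φ} (h : tl d i g = tl d i g') :
    ∃ p : G i, g' = of i p * g := by
  refine ⟨(NormalWord.equivPair i (nw d g')).head * (NormalWord.equivPair i (nw d g)).head⁻¹,
    nw_inj d ?_⟩
  rw [nw_mul, NormalWord.summand_smul_def, ← Equiv.symm_apply_apply (NormalWord.equivPair i)
    (nw d g')]
  congr 1
  rw [Equiv.apply_symm_apply, inv_mul_cancel_right]
  have h1 : (NormalWord.equivPair i (nw d g)).tail = (NormalWord.equivPair i (nw d g')).tail :=
    word_ext h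
  generalize NormalWord.equivPair i (nw d g) = q at h1 ⊢
  generalize NormalWord.equivPair i (nw d g') = q' at h1 ⊢
  obtain ⟨⟨a, t, ht⟩, hn⟩ := q
  obtain ⟨⟨a', t', ht'⟩, hn'⟩ := q'
  have h2 : t = t' := h1
  subst h2
  rfl

theorem wl_cases (i : ι) (g : PushoutI φ) : wl d g = tl d i g ∨
    ∃ x, wl d g = ⟨i, x⟩ :: tl d i g := by
  rw [wl, tl]
  have h := Equiv.symm_apply_apply (NormalWord.equivPair i) (nw d g)
  set q := NormalWord.equivPair i (nw d g) with hq
  rw [← h]
  show (CoprodI.Word.rcons { q.toPair with head := _ }).toList = _ ∨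
    ∃ x, (CoprodI.Word.rcons { q.toPair with head := _ }).toList = _
  rw [CoprodI.Word.rcons]
  split_ifs with h1
  · exact Or.inl rfl
  · exact Or.inr ⟨_, rfl⟩

theorem tl_fst (i : ι) (g : PushoutI φ) (x : G i) (l : List (Σ i, G i)) :
    tl d i g ≠ ⟨i, x⟩ :: l := by
  intro h
  apply (NormalWord.equivPair i (nw d g)).fstIdx_ne
  rw [tl] at h
  rw [CoprodI.Word.fstIdx, h]
  rfl

theorem tl_of_cons {i : ι} {g : PushoutI φ} {x : G i} {l : List (Σ i, G i)}
    (h : wl d g = ⟨i, x⟩ :: l) : tl d i g = l := by
  rcases wl_cases d i g with h1 | ⟨y, h1⟩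
  · exact absurd (h1.symm.trans h) (tl_fst d i g x l)
  · rw [h] at h1
    exact (List.cons.inj h1).2.symm

theorem exists_tl (i : ι) (g : PushoutI φ) : ∃ g' : PushoutI φ, wl d g' = tl d i g := by
  refine ⟨NormalWord.equiv.symm (⟨(NormalWord.equivPair i (nw d g)).tail, 1,
    (NormalWord.equivPair i (nw d g)).normalized⟩ : NormalWord d), ?_⟩
  rw [wl, nw, Equiv.apply_symm_apply]
  rfl

/-- Encoding of words. -/
def enc : List (Σ i, G i) → List ((Σ i, G i) ⊕ ι)
  | [] => []
  | a :: l => Sum.inl a :: Sum.inr a.1 :: enc l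

omit [∀ i, Group (G i)] [DecidableEq ι] [∀ i, DecidableEq (G i)] in
theorem enc_inj : ∀ l l' : List (Σ i, G i), enc l = enc l' → l = l'
  | [], [], _ => rfl
  | [], _ :: _, h => by simp [enc] at h
  | _ :: _, [], h => by simp [enc] at h
  | a :: l, b :: m, h => by
    simp only [enc, List.cons.injEq, Sum.inl.injEq] at h
    rw [h.1, enc_inj l m h.2.2]

omit [∀ i, Group (G i)] [DecidableEq ι] [∀ i, DecidableEq (G i)] in
theorem enc_even : ∀ l : List (Σ i, G i), Even (enc l).length
  | [] => by simp [enc]
  | _ :: l => by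
    simp only [enc, List.length_cons]
    obtain ⟨k, hk⟩ := enc_even l
    exact ⟨k + 1, by omega⟩

end words

section tree

variable {A : Type u} [Group A] {ι : Type u} (C : Subgroup A) (P : ι → Subgroup A)

/-- The vertices of the tree: the cosets of `C` and of the `P i`. -/
abbrev Vert : Type u := (A ⧸ C) ⊕ Σ i, A ⧸ P i

/-- The tree. -/
def graph : SimpleGraph (Vert C P) where
  Adj x y := (∃ (g : A) (i : ι), x = Sum.inl (g : A ⧸ C) ∧ y = Sum.inr ⟨i, (g : A ⧸ P i)⟩) ∨
    ∃ (g : A) (i : ι), y = Sum.inl (g : A ⧸ C) ∧ x = Sum.inr ⟨i, (g : A ⧸ P i)⟩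
  symm := ⟨fun _ _ h => h.symm⟩
  loopless := ⟨fun x h => by
    rcases h with ⟨g, i, h1, h2⟩ | ⟨g, i, h1, h2⟩
    · rw [h1] at h2; cases h2
    · rw [h1] at h2; cases h2⟩

variable {C P} (hC : ∀ i, C ≤ P i)

theorem adj_smul (a : A) (x y : Vert C P) (h : (graph C P).Adj x y) :
    (graph C P).Adj (a • x) (a • y) := by
  rcases h with ⟨g, i, h1, h2⟩ | ⟨g, i, h1, h2⟩
  · exact Or.inl ⟨a * g, i, by rw [h1]; rfl, by rw [h2]; rfl⟩
  · exact Or.inr ⟨a * g, i, by rw [h1]; rfl, by rw [h2]; rfl⟩

theorem no_inversion (a : A) (x y : Vert C P) (h : (graph C P).Adj x y) (hxy : a • x = y) :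
    a • y ≠ x := by
  intro _
  rcases h with ⟨g, i, h1, h2⟩ | ⟨g, i, h1, h2⟩
  · rw [h1, h2] at hxy
    cases hxy
  · rw [h1, h2] at hxy
    cases hxy

theorem smul_inl (a g : A) : a • (Sum.inl (g : A ⧸ C) : Vert C P) = Sum.inl (g : A ⧸ C) ↔
    g⁻¹ * a * g ∈ C := by
  show (Sum.inl ((a * g : A) : A ⧸ C) : Vert C P) = Sum.inl (g : A ⧸ C) ↔ _
  rw [Sum.inl.injEq, eq_comm, QuotientGroup.eq, ← mul_assoc]

theorem smul_inr (a g : A) (i : ι) :
    a • (Sum.inr ⟨i, (g : A ⧸ P i)⟩ : Vert C P) = Sum.inr ⟨i, (g : A ⧸ P i)⟩ ↔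
    g⁻¹ * a * g ∈ P i := by
  show (Sum.inr ⟨i, ((a * g : A) : A ⧸ P i)⟩ : Vert C P) = Sum.inr ⟨i, (g : A ⧸ P i)⟩ ↔ _
  rw [Sum.inr.injEq, Sigma.mk.injEq]
  simp only [heq_eq_eq, true_and]
  rw [eq_comm, QuotientGroup.eq, ← mul_assoc]

/-- The tree of an amalgam is a tree: version with an isomorphism to the pushout. -/
theorem isTree_of_equiv [Nonempty ι]
    (s : A ≃* PushoutI fun i => Subgroup.inclusion (hC i))
    (hs : ∀ i (p : P i), s p = of i p) : (graph C P).IsTree := by
  classical
  obtain ⟨d⟩ := NormalWord.transversal_nonempty (fun i => Subgroup.inclusion (hC i))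
    fun i => Subgroup.inclusion_injective _
  have hsC : ∀ c : C, s c = base _ c := by
    intro c
    obtain ⟨i⟩ := ‹Nonempty ι›
    have h1 := hs i (Subgroup.inclusion (hC i) c)
    rw [of_apply_eq_base] at h1
    exact h1
  -- the lists
  let LC : A → List ((Σ i, P i) ⊕ ι) := fun g => enc (wl d (s g⁻¹))
  let LG : ι → A → List ((Σ i, P i) ⊕ ι) := fun i g => Sum.inr i :: enc (tl d i (s g⁻¹))
  have hLC : ∀ g g' : A, (g : A ⧸ C) = g' ↔ LC g = LC g' := by
    intro g g'
    constructor
    · intro h
      rw [QuotientGroup.eq] at h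
      have h1 : g⁻¹ = ((⟨_, h⟩ : C) : A) * g'⁻¹ := by
        show g⁻¹ = g⁻¹ * g' * g'⁻¹
        rw [mul_inv_cancel_right]
      show enc (wl d (s g⁻¹)) = enc (wl d (s g'⁻¹))
      rw [h1, map_mul, hsC, wl_base]
    · intro h
      obtain ⟨c, hc⟩ := wl_eq d (enc_inj _ _ h)
      rw [← hsC, ← map_mul] at hc
      have h1 := s.injective hc
      rw [eq_comm, QuotientGroup.eq, h1, mul_assoc, inv_mul_cancel, mul_one]
      exact c.2
  have hLG : ∀ (i : ι) (g g' : A), (g : A ⧸ P i) = g' ↔ tl d i (s g⁻¹) = tl d i (s g'⁻¹) := by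
    intro i g g'
    constructor
    · intro h
      rw [QuotientGroup.eq] at h
      have h1 : g⁻¹ = ((⟨_, h⟩ : P i) : A) * g'⁻¹ := by
        show g⁻¹ = g⁻¹ * g' * g'⁻¹
        rw [mul_inv_cancel_right]
      rw [h1, map_mul, hs, tl_of]
    · intro h
      obtain ⟨c, hc⟩ := tl_eq d h
      rw [← hs, ← map_mul] at hc
      have h1 := s.injective hc
      rw [eq_comm, QuotientGroup.eq, h1, mul_assoc, inv_mul_cancel, mul_one]
      exact c.2
  let L : Vert C P → List ((Σ i, P i) ⊕ ι) := fun x => match x with
    | Sum.inl q => Quotient.liftOn' q LC fun g g' h => (hLC g g').1 (Quotient.sound' h)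
    | Sum.inr ⟨i, q⟩ => Quotient.liftOn' q (LG i) fun g g' h =>
        congrArg (fun l => Sum.inr i :: enc l) ((hLG i g g').1 (Quotient.sound' h))
  have hL1 : ∀ g : A, L (Sum.inl (g : A ⧸ C)) = enc (wl d (s g⁻¹)) := fun _ => rfl
  have hL2 : ∀ (i : ι) (g : A), L (Sum.inr ⟨i, (g : A ⧸ P i)⟩) =
      Sum.inr i :: enc (tl d i (s g⁻¹)) := fun _ _ => rfl
  have hpar1 : ∀ g : A, Even (L (Sum.inl (g : A ⧸ C))).length := fun g => by
    rw [hL1]; exact enc_even _
  have hpar2 : ∀ (i : ι) (g : A), ¬ Even (L (Sum.inr ⟨i, (g : A ⧸ P i)⟩)).length := fun i g => by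
    rw [hL2, List.length_cons, Nat.even_add_one, not_not]; exact enc_even _
  have hsurj : ∀ y : PushoutI fun i => Subgroup.inclusion (hC i), ∃ g : A, s g⁻¹ = y := fun y =>
    ⟨(s.symm y)⁻¹, by rw [inv_inv, MulEquiv.apply_symm_apply]⟩
  refine isTree_of_lists (graph C P) L ?_ (Sum.inl ((1 : A) : A ⧸ C)) ?_ ?_ ?_
  · -- injectivity
    rintro (x | ⟨i, x⟩) (y | ⟨j, y⟩) h
    · induction x using QuotientGroup.induction_on with | _ x => ?_
      induction y using QuotientGroup.induction_on with | _ y => ?_
      rw [(hLC x y).2 h]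
    · induction x using QuotientGroup.induction_on with | _ x => ?_
      induction y using QuotientGroup.induction_on with | _ y => ?_
      exact absurd (h ▸ hpar1 x) (hpar2 j y)
    · induction x using QuotientGroup.induction_on with | _ x => ?_
      induction y using QuotientGroup.induction_on with | _ y => ?_
      exact absurd (h ▸ hpar1 y) (hpar2 i x)
    · induction x using QuotientGroup.induction_on with | _ x => ?_
      induction y using QuotientGroup.induction_on with | _ y => ?_
      rw [hL2, hL2] at h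
      obtain ⟨h1, h2⟩ := List.cons.inj h
      have h3 : i = j := Sum.inr.inj h1
      subst h3
      rw [(hLG i x y).2 (enc_inj _ _ h2)]
  · -- root
    rw [hL1, inv_one, map_one]
    have h1 : wl d (1 : PushoutI fun i => Subgroup.inclusion (hC i)) = [] := by
      show ((1 : PushoutI fun i => Subgroup.inclusion (hC i)) •
        (NormalWord.empty : NormalWord d)).toList = []
      rw [one_smul]
      rfl
    rw [h1]
    rfl
  · -- tails
    rintro (y | ⟨i, y⟩) a l h
    · induction y using QuotientGroup.induction_on with | _ y => ?_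
      rw [hL1] at h
      cases hw : wl d (s y⁻¹) with
      | nil => rw [hw] at h; simp [enc] at h
      | cons b m =>
        obtain ⟨i, b⟩ := b
        rw [hw] at h
        simp only [enc, List.cons.injEq] at h
        refine ⟨Sum.inr ⟨i, (y : A ⧸ P i)⟩, ?_⟩
        rw [hL2, tl_of_cons d hw]
        exact h.2
    · induction y using QuotientGroup.induction_on with | _ y => ?_
      rw [hL2] at h
      obtain ⟨-, h⟩ := List.cons.inj h
      obtain ⟨z, hz⟩ := exists_tl d i (s y⁻¹)
      obtain ⟨g, hg⟩ := hsurj z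
      refine ⟨Sum.inl (g : A ⧸ C), ?_⟩
      rw [hL1, hg, hz]
      exact h
  · -- adjacency
    have key : ∀ (g : A) (i : ι),
        (∃ a, L (Sum.inl (g : A ⧸ C)) = a :: L (Sum.inr ⟨i, (g : A ⧸ P i)⟩)) ∨
        ∃ a, L (Sum.inr ⟨i, (g : A ⧸ P i)⟩) = a :: L (Sum.inl (g : A ⧸ C)) := by
      intro g i
      rw [hL1, hL2]
      rcases wl_cases d i (s g⁻¹) with h | ⟨x, h⟩
      · exact Or.inr ⟨_, by rw [h]⟩
      · exact Or.inl ⟨Sum.inl ⟨i, x⟩, by rw [h]; rfl⟩
    have key2 : ∀ x y : Vert C P, (∃ a, L x = a :: L y) → (graph C P).Adj x y := by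
      rintro (x | ⟨i, x⟩) (y | ⟨j, y⟩) ⟨a, h⟩
      · induction x using QuotientGroup.induction_on with | _ x => ?_
        induction y using QuotientGroup.induction_on with | _ y => ?_
        have h1 := hpar1 x
        rw [h, List.length_cons, Nat.even_add_one] at h1
        exact absurd (hpar1 y) h1
      · induction x using QuotientGroup.induction_on with | _ x => ?_
        induction y using QuotientGroup.induction_on with | _ y => ?_
        rw [hL1, hL2] at h
        cases hw : wl d (s x⁻¹) with
        | nil => rw [hw] at h; simp [enc] at h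
        | cons b m =>
          obtain ⟨i, b⟩ := b
          rw [hw] at h
          simp only [enc, List.cons.injEq, Sum.inr.injEq] at h
          obtain ⟨-, h1, h2⟩ := h
          subst h1
          have h3 := enc_inj _ _ h2
          rw [← tl_of_cons d hw] at h3
          exact Or.inl ⟨x, i, rfl, by rw [(hLG i x y).2 h3]⟩
      · induction x using QuotientGroup.induction_on with | _ x => ?_
        induction y using QuotientGroup.induction_on with | _ y => ?_
        rw [hL1, hL2] at h
        obtain ⟨-, h1⟩ := List.cons.inj h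
        have h2 := enc_inj _ _ h1
        rcases wl_cases d i (s y⁻¹) with h3 | ⟨z, h3⟩
        · exact Or.inr ⟨y, i, rfl, by rw [(hLG i x y).2 (h2.trans h3)]⟩
        · exact absurd (h2.trans h3) (tl_fst d i _ _ _)
      · induction x using QuotientGroup.induction_on with | _ x => ?_
        induction y using QuotientGroup.induction_on with | _ y => ?_
        have h1 := hpar2 i x
        rw [h, List.length_cons, Nat.even_add_one, not_not] at h1
        exact absurd h1 (hpar2 j y)
    intro x y
    constructor
    · rintro (⟨g, i, rfl, rfl⟩ | ⟨g, i, rfl, rfl⟩)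
      · exact key g i
      · exact (key g i).symm
    · rintro (h | h)
      · exact key2 x y h
      · exact (key2 y x h).symm

/-- The tree of an amalgam is a tree: `A` is generated by the `P i`, and there is a homomorphism from
`A` to the pushout which is the identity on the `P i`. -/
theorem isTree [Nonempty ι] (hgen : ⨆ i, P i = ⊤)
    (s : A →* PushoutI fun i => Subgroup.inclusion (hC i))
    (hs : ∀ i (p : P i), s p = of i p) : (graph C P).IsTree := by
  let f : PushoutI (fun i => Subgroup.inclusion (hC i)) →* A :=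
    lift (fun i => (P i).subtype) C.subtype fun i => rfl
  have h1 : ∀ a : A, f (s a) = a := by
    have h2 : (⊤ : Subgroup A) ≤ (f.comp s).eqLocus (MonoidHom.id A) := by
      rw [← hgen, iSup_le_iff]
      intro i p hp
      show f (s p) = p
      have h3 := hs i ⟨p, hp⟩
      simp only at h3
      rw [h3]
      exact lift_of _ _ _ _
    exact fun a => h2 (Subgroup.mem_top a)
  have h2 : ∀ x, s (f x) = x := by
    have h3 : s.comp f = MonoidHom.id _ := by
      refine hom_ext_nonempty fun i => ?_
      ext p
      show s (f (of i p)) = of i p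
      rw [show f (of i p) = (p : A) from lift_of _ _ _ _, hs]
    exact fun x => DFunLike.congr_fun h3 x
  exact isTree_of_equiv hC ⟨⟨s, f, h1, h2⟩, map_mul s⟩ hs

/-- The tree of an amalgam is a tree: `A` is generated by the `P i`, and homomorphisms on the `P i`
which agree on `C` extend to `A`. -/
theorem isTree_of_universal [Nonempty ι] (hgen : ⨆ i, P i = ⊤)
    (hup : ∀ (B : Type u) [Group B] (f : ∀ i, P i →* B),
      (∀ i j (c : C), f i (Subgroup.inclusion (hC i) c) = f j (Subgroup.inclusion (hC j) c)) →
      ∃ F : A →* B, ∀ i (p : P i), F p = f i p) : (graph C P).IsTree := by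
  obtain ⟨s, hs⟩ := hup (PushoutI fun i => Subgroup.inclusion (hC i))
    (fun i => of (φ := fun i => Subgroup.inclusion (hC i)) i)
    fun i j c => (of_apply_eq_base (fun i => Subgroup.inclusion (hC i)) i c).trans
      (of_apply_eq_base (fun i => Subgroup.inclusion (hC i)) j c).symm
  exact isTree hC hgen s hs

end tree

end Pool.Agent.Lib.MP_551055_al.AT70
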